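import Pool.Agent.N922.PQ.Lat

/-!
# The ring of integers of the cubic field with squarefree discriminant (part INT of project PQ)

After `Pool/Agent/N833/PP/Int.lean` (helper849).
-/

set_option autoImplicit false
set_option linter.all false

open Polynomial IsDedekindDomain
open scoped Matrix
open scoped Classical

namespace Pool.Agent.N849.PQ

open Pool.Agent.N922.PQ

section cub

variable {L : Type} [Field L] [CharZero L] {a b : ℤ} {θ : L}

theorem cube (h : IsCub a b θ) : θ ^ 3 = -((a : L) * θ) - (b : L) := by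
  linear_combination h.root

theorem repr_comb (h : IsCub a b θ) (r s t : ℚ) (i : Fin 3) :
    h.basis.repr ((r : L) + (s : L) * θ + (t : L) * θ ^ 2) i = ![r, s, t] i := by
  have e : (r : L) + (s : L) * θ + (t : L) * θ ^ 2 =
      r • h.basis 0 + s • h.basis 1 + t • h.basis 2 := by
    rw [h.basis_apply, h.basis_apply, h.basis_apply]
    simp [vec, Rat.smul_def]
  rw [e, map_add, map_add, map_smul, map_smul, map_smul]
  simp only [Module.Basis.repr_self, Finsupp.add_apply, Finsupp.smul_apply, smul_eq_mul]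
  fin_cases i <;> simp [Finsupp.single_apply]

/-- the trace -/
theorem trace_comb (h : IsCub a b θ) (r s t : ℚ) :
    Algebra.trace ℚ L ((r : L) + (s : L) * θ + (t : L) * θ ^ 2) = 3 * r - 2 * (a : ℚ) * t := by
  rw [Algebra.trace_eq_matrix_trace h.basis, Matrix.trace, Fin.sum_univ_three]
  simp only [Matrix.diag_apply, Algebra.leftMulMatrix_eq_repr_mul, h.basis_apply]
  have h3 := cube h
  have e0 : ((r : L) + (s : L) * θ + (t : L) * θ ^ 2) * vec θ 0 =
      (r : L) + (s : L) * θ + (t : L) * θ ^ 2 := by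
    simp [vec]
  have e1 : ((r : L) + (s : L) * θ + (t : L) * θ ^ 2) * vec θ 1 =
      ((-(t * (b : ℚ)) : ℚ) : L) + ((r - t * (a : ℚ) : ℚ) : L) * θ + (s : L) * θ ^ 2 := by
    simp only [vec, Matrix.cons_val_one, Matrix.cons_val_zero]
    push_cast
    linear_combination (t : L) * h3
  have e2 : ((r : L) + (s : L) * θ + (t : L) * θ ^ 2) * vec θ 2 =
      ((-(s * (b : ℚ)) : ℚ) : L) + ((-(s * (a : ℚ)) - t * (b : ℚ) : ℚ) : L) * θ +
        ((r - t * (a : ℚ) : ℚ) : L) * θ ^ 2 := by
    simp only [vec, Matrix.cons_val]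
    push_cast
    linear_combination ((s : L) + (t : L) * θ) * h3
  rw [e0, e1, e2, repr_comb h, repr_comb h, repr_comb h]
  simp only [Matrix.cons_val, Matrix.cons_val_zero, Matrix.cons_val_one]
  ring

/-- the discriminant -/
theorem discr_vec (h : IsCub a b θ) : Algebra.discr ℚ (vec θ) = -((dsc a b : ℤ) : ℚ) := by
  have h3 := cube h
  have t0 : Algebra.trace ℚ L 1 = 3 := by
    have := trace_comb h 1 0 0
    simpa using this
  have t1 : Algebra.trace ℚ L θ = 0 := by
    have := trace_comb h 0 1 0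
    simpa using this
  have t2 : Algebra.trace ℚ L (θ ^ 2) = -2 * (a : ℚ) := by
    have := trace_comb h 0 0 1
    simpa using this
  have t3 : Algebra.trace ℚ L (θ ^ 3) = -3 * (b : ℚ) := by
    have := trace_comb h (-(b : ℚ)) (-(a : ℚ)) 0
    have e : ((-(b : ℚ) : ℚ) : L) + ((-(a : ℚ) : ℚ) : L) * θ + ((0 : ℚ) : L) * θ ^ 2 = θ ^ 3 := by
      rw [h3]; push_cast; ring
    rw [e] at this
    rw [this]; ring
  have t4 : Algebra.trace ℚ L (θ ^ 4) = 2 * (a : ℚ) ^ 2 := by
    have := trace_comb h 0 (-(b : ℚ)) (-(a : ℚ))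
    have e : ((0 : ℚ) : L) + ((-(b : ℚ) : ℚ) : L) * θ + ((-(a : ℚ) : ℚ) : L) * θ ^ 2 = θ ^ 4 := by
      push_cast
      linear_combination (-θ) * h3
    rw [e] at this
    rw [this]; ring
  rw [Algebra.discr_def, Matrix.det_fin_three]
  simp only [Algebra.traceMatrix_apply, Algebra.traceForm_apply, vec, Matrix.cons_val,
    Matrix.cons_val_zero, Matrix.cons_val_one]
  have e1 : (1 : L) * 1 = 1 := one_mul 1
  have e2 : θ * θ = θ ^ 2 := by ring
  have e3 : θ * θ ^ 2 = θ ^ 3 := by ring
  have e4 : θ ^ 2 * θ = θ ^ 3 := by ring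
  have e5 : θ ^ 2 * θ ^ 2 = θ ^ 4 := by ring
  rw [e1, e2, e3, e4, e5, one_mul, one_mul, mul_one, mul_one, t0, t1, t2, t3, t4]
  unfold dsc
  push_cast
  ring

end cub

theorem sqf_int {D : ℤ} (hD : Squarefree D) {t : ℚ}
    (h : IsIntegral ℤ (t ^ 2 * (D : ℚ))) : ∃ c : ℤ, (c : ℚ) = t := by
  have hD0 : D ≠ 0 := hD.ne_zero
  have hD0' : (D : ℚ) ≠ 0 := by exact_mod_cast hD0
  have h1 : IsIntegral ℤ (t * (D : ℚ)) := by
    refine IsIntegral.of_pow (n := 2) (by norm_num) ?_
    have : (t * (D : ℚ)) ^ 2 = t ^ 2 * (D : ℚ) * (D : ℚ) := by ring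
    rw [this]
    exact h.mul (by simpa using (isIntegral_algebraMap (R := ℤ) (A := ℚ) (x := D)))
  obtain ⟨m, hm⟩ := IsIntegrallyClosed.isIntegral_iff.1 h1
  obtain ⟨n, hn⟩ := IsIntegrallyClosed.isIntegral_iff.1 h
  rw [eq_intCast] at hm hn
  have h2 : m ^ 2 = n * D := by
    have : ((m ^ 2 : ℤ) : ℚ) = ((n * D : ℤ) : ℚ) := by
      push_cast
      rw [hm, hn]
      ring
    exact_mod_cast this
  have h3 : D ∣ m := (hD.dvd_pow_iff_dvd (n := 2) (by norm_num)).1 ⟨n, by rw [h2]; ring⟩
  obtain ⟨c, rfl⟩ := h3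
  refine ⟨c, ?_⟩
  push_cast at hm
  rw [mul_comm] at hm
  exact mul_right_cancel₀ hD0' hm

theorem int : S_INT := by
  intro L _ _ a b θ h hsq x
  have hfin : Module.Finite ℚ L := Module.Finite.of_basis h.basis
  have hint : ∀ r : ℤ, IsIntegral ℤ (r : L) := fun r => by
    simpa using (isIntegral_algebraMap (R := ℤ) (A := L) (x := r))
  have hθ : IsIntegral ℤ θ := by
    refine ⟨X ^ 3 + C a * X + C b, ?_, ?_⟩
    · monicity!
    · rw [eval₂_add, eval₂_add, eval₂_mul, eval₂_C, eval₂_C, eval₂_X, eval₂_pow, eval₂_X]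
      simpa using h.root
  have hneg : ∀ q : ℚ, IsIntegral ℤ (q ^ 2 * -((dsc a b : ℤ) : ℚ)) → IsIntegral ℤ (q ^ 2 * ((dsc a b : ℤ) : ℚ)) := by
    intro q hq
    have := hq.neg
    rwa [mul_neg, neg_neg] at this
  constructor
  · intro hx
    obtain ⟨r, s, t, rfl⟩ := h.gen x
    -- the coefficient of θ ^ 2
    have ht : ∃ c : ℤ, (c : ℚ) = t := by
      apply sqf_int hsq
      have h1 : IsIntegral ℤ (Algebra.discr ℚ (vec θ ᵥ*
          (!![1, 0, r; 0, 1, s; 0, 0, t] : Matrix (Fin 3) (Fin 3) ℚ).map (algebraMap ℚ L))) := by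
        apply Algebra.discr_isIntegral
        intro i
        fin_cases i
        · have : (vec θ ᵥ* (!![1, 0, r; 0, 1, s; 0, 0, t] : Matrix (Fin 3) (Fin 3) ℚ).map
              (algebraMap ℚ L)) 0 = 1 := by
            simp [Matrix.vecMul, dotProduct, Fin.sum_univ_three, vec]
          simp only [Fin.zero_eta]
          rw [this]
          exact isIntegral_one
        · have : (vec θ ᵥ* (!![1, 0, r; 0, 1, s; 0, 0, t] : Matrix (Fin 3) (Fin 3) ℚ).map
              (algebraMap ℚ L)) 1 = θ := by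
            simp [Matrix.vecMul, dotProduct, Fin.sum_univ_three, vec]
          simp only [Fin.mk_one]
          rw [this]
          exact hθ
        · have : (vec θ ᵥ* (!![1, 0, r; 0, 1, s; 0, 0, t] : Matrix (Fin 3) (Fin 3) ℚ).map
              (algebraMap ℚ L)) 2 = (r : L) + (s : L) * θ + (t : L) * θ ^ 2 := by
            simp [Matrix.vecMul, dotProduct, Fin.sum_univ_three, vec]
            ring
          simp only [Fin.reduceFinMk]
          rw [this]
          exact hx
      rw [Algebra.discr_of_matrix_vecMul, discr_vec h, Matrix.det_fin_three] at h1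
      apply hneg
      simpa using h1
    obtain ⟨t', rfl⟩ := ht
    have hx' : IsIntegral ℤ ((r : L) + (s : L) * θ) := by
      have h1 := hx.sub ((hint t').mul (hθ.pow 2))
      rwa [Rat.cast_intCast, add_sub_cancel_right] at h1
    have hs : ∃ c : ℤ, (c : ℚ) = s := by
      apply sqf_int hsq
      have h1 : IsIntegral ℤ (Algebra.discr ℚ (vec θ ᵥ*
          (!![1, r, 0; 0, s, 0; 0, 0, 1] : Matrix (Fin 3) (Fin 3) ℚ).map (algebraMap ℚ L))) := by
        apply Algebra.discr_isIntegral
        intro i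
        fin_cases i
        · have : (vec θ ᵥ* (!![1, r, 0; 0, s, 0; 0, 0, 1] : Matrix (Fin 3) (Fin 3) ℚ).map
              (algebraMap ℚ L)) 0 = 1 := by
            simp [Matrix.vecMul, dotProduct, Fin.sum_univ_three, vec]
          simp only [Fin.zero_eta]
          rw [this]
          exact isIntegral_one
        · have : (vec θ ᵥ* (!![1, r, 0; 0, s, 0; 0, 0, 1] : Matrix (Fin 3) (Fin 3) ℚ).map
              (algebraMap ℚ L)) 1 = (r : L) + (s : L) * θ := by
            simp [Matrix.vecMul, dotProduct, Fin.sum_univ_three, vec]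
            ring
          simp only [Fin.mk_one]
          rw [this]
          exact hx'
        · have : (vec θ ᵥ* (!![1, r, 0; 0, s, 0; 0, 0, 1] : Matrix (Fin 3) (Fin 3) ℚ).map
              (algebraMap ℚ L)) 2 = θ ^ 2 := by
            simp [Matrix.vecMul, dotProduct, Fin.sum_univ_three, vec]
          simp only [Fin.reduceFinMk]
          rw [this]
          exact hθ.pow 2
      rw [Algebra.discr_of_matrix_vecMul, discr_vec h, Matrix.det_fin_three] at h1
      apply hneg
      simpa using h1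
    obtain ⟨s', rfl⟩ := hs
    have hr : ∃ c : ℤ, (c : ℚ) = r := by
      have h1 := hx'.sub ((hint s').mul hθ)
      rw [Rat.cast_intCast, add_sub_cancel_right] at h1
      have h2 : IsIntegral ℤ r := by
        refine (isIntegral_algebraMap_iff (algebraMap ℚ L).injective).1 ?_
        rwa [eq_ratCast]
      obtain ⟨c, hc⟩ := IsIntegrallyClosed.isIntegral_iff.1 h2
      exact ⟨c, by rwa [eq_intCast] at hc⟩
    obtain ⟨r', rfl⟩ := hr
    refine ⟨![r', s', t'], ?_⟩
    unfold Crd
    simp only [Matrix.cons_val, Matrix.cons_val_zero, Matrix.cons_val_one, Rat.cast_intCast]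
  · rintro ⟨v, rfl⟩
    exact ((hint _).add ((hint _).mul hθ)).add ((hint _).mul (hθ.pow 2))

end Pool.Agent.N849.PQ
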